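import Pool.Agent.MP_c1891a_nt.H79.Spec

/-
The independence measure at a large integer point.
-/

namespace Pool.Agent.MP_c1891a_nt.H33

open Finset Polynomial Pool.Agent.MP_c1891a_nt.H79

theorem lcm_le (n : ℕ) : (Nat.lcmUpto n : ℚ) ≤ 256 ^ n := by
  have h1 := Chebyshev.psi_le_const_mul_self (x := (n : ℝ)) (Nat.cast_nonneg n)
  rw [Chebyshev.psi_eq_log_lcmUpto] at h1
  have hp : (0 : ℝ) < Nat.lcmUpto n := by exact_mod_cast Nat.lcmUpto_pos n
  have h2 : Real.log 4 + 4 ≤ Real.log 256 := by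
    have h3 : Real.log 256 = Real.log 4 + 6 * Real.log 2 := by
      rw [show (256 : ℝ) = 4 * 2 ^ 6 by norm_num, Real.log_mul (by norm_num) (by norm_num),
        Real.log_pow]
      norm_num
    have := Real.log_two_gt_d9
    linarith
  have h4 : Real.log (Nat.lcmUpto n) ≤ Real.log (256 ^ n) := by
    rw [Real.log_pow]
    nlinarith [(Nat.cast_nonneg n : (0 : ℝ) ≤ n)]
  have h5 : (Nat.lcmUpto n : ℝ) ≤ 256 ^ n := (Real.log_le_log_iff hp (by positivity)).1 h4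
  exact_mod_cast h5

theorem lcm_dvd {j n : ℕ} (h : j ≤ n) : Nat.lcmUpto j ∣ Nat.lcmUpto n :=
  Finset.lcm_mono (Finset.Icc_subset_Icc_right h)

theorem den_mul {p : ℚ[X]} (hp : IntP p) {V : PowerSeries ℚ} (hV : Den V) :
    Den ((p : PowerSeries ℚ) * V) := by
  intro n
  rw [PowerSeries.coeff_mul, Finset.mul_sum]
  have : ∀ x ∈ antidiagonal n, ∃ m : ℤ, (Nat.lcmUpto n : ℚ) *
      (PowerSeries.coeff x.1 (p : PowerSeries ℚ) * PowerSeries.coeff x.2 V) = m := by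
    intro x hx
    obtain ⟨a, ha⟩ := hp x.1
    obtain ⟨b, hb⟩ := hV x.2
    obtain ⟨c, hc⟩ := lcm_dvd (j := x.2) (n := n) (by
      have := mem_antidiagonal.1 hx
      omega)
    refine ⟨a * b * c, ?_⟩
    rw [Polynomial.coeff_coe, ha, hc]
    push_cast
    rw [← hb]
    ring
  choose! m hm using this
  exact ⟨∑ x ∈ antidiagonal n, m x, by rw [Finset.sum_congr rfl hm]; push_cast; rfl⟩

theorem den_pow {p : ℚ[X]} (hp : IntP p) {V : PowerSeries ℚ} (hV : Den V) (k : ℕ) :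
    Den ((p : PowerSeries ℚ) ^ k * V) := by
  induction k with
  | zero => simpa using hV
  | succ k ih =>
    rw [pow_succ', mul_assoc]
    exact den_mul hp ih

theorem mulB {p : ℚ[X]} {m J : ℕ} {β B : ℚ} (hm : p.natDegree ≤ m) (hβ : ∀ l, |p.coeff l| ≤ β)
    {h : PowerSeries ℚ} (hB : ∀ j ≤ J, |PowerSeries.coeff j h| ≤ B) :
    ∀ j ≤ J, |PowerSeries.coeff j ((p : PowerSeries ℚ) * h)| ≤ (m + 1) * β * B := by
  intro j hj
  have hB0 : 0 ≤ B := (abs_nonneg _).trans (hB 0 (Nat.zero_le _))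
  have hβ0 : 0 ≤ β := (abs_nonneg _).trans (hβ 0)
  rw [PowerSeries.coeff_mul, Finset.Nat.sum_antidiagonal_eq_sum_range_succ_mk]
  refine (Finset.abs_sum_le_sum_abs _ _).trans ?_
  have h1 : ∀ l ∈ range (j + 1), |PowerSeries.coeff l (p : PowerSeries ℚ) *
      PowerSeries.coeff (j - l) h| ≤ if l ∈ range (m + 1) then β * B else 0 := by
    intro l _
    rw [Polynomial.coeff_coe, abs_mul]
    split_ifs with hl
    · exact mul_le_mul (hβ l) (hB _ (by omega)) (abs_nonneg _) hβ0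
    · rw [coeff_eq_zero_of_natDegree_lt (by simp at hl; omega)]
      simp
  refine (Finset.sum_le_sum h1).trans ?_
  rw [← Finset.sum_filter, Finset.sum_const, nsmul_eq_mul, mul_assoc]
  refine mul_le_mul_of_nonneg_right ?_ (mul_nonneg hβ0 hB0)
  have : #{l ∈ range (j + 1) | l ∈ range (m + 1)} ≤ m + 1 := by
    refine (Finset.card_le_card (t := range (m + 1)) fun l hl => (mem_filter.1 hl).2).trans ?_
    simp
  exact_mod_cast this

theorem powB {p : ℚ[X]} {m J : ℕ} {β B : ℚ} (hm : p.natDegree ≤ m) (hβ : ∀ l, |p.coeff l| ≤ β)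
    {h : PowerSeries ℚ} (hB : ∀ j ≤ J, |PowerSeries.coeff j h| ≤ B) (k : ℕ) :
    ∀ j ≤ J, |PowerSeries.coeff j ((p : PowerSeries ℚ) ^ k * h)| ≤ ((m + 1) * β) ^ k * B := by
  induction k with
  | zero => simpa using hB
  | succ k ih =>
    intro j hj
    rw [pow_succ', mul_assoc, pow_succ', mul_assoc]
    exact mulB hm hβ ih j hj

theorem evalB {p : ℚ[X]} {J : ℕ} {B c : ℚ} (hJ : p.natDegree ≤ J) (hB : ∀ j ≤ J, |p.coeff j| ≤ B)
    (hc : 1 ≤ |c|) : |p.eval c| ≤ (J + 1) * B * |c| ^ J := by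
  have hB0 : 0 ≤ B := (abs_nonneg _).trans (hB 0 (Nat.zero_le _))
  rw [eval_eq_sum_range' (Nat.lt_succ_of_le hJ)]
  refine (Finset.abs_sum_le_sum_abs _ _).trans ?_
  have h1 : ∀ l ∈ range (J + 1), |p.coeff l * c ^ l| ≤ B * |c| ^ J := by
    intro l hl
    have hl' : l ≤ J := Nat.lt_succ_iff.1 (mem_range.1 hl)
    rw [abs_mul, abs_pow]
    exact mul_le_mul (hB l hl') (pow_le_pow_right₀ hc hl') (by positivity) hB0
  refine (Finset.sum_le_sum h1).trans ?_
  rw [Finset.sum_const, card_range, nsmul_eq_mul, mul_assoc]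
  push_cast
  rfl

theorem tele (U : PowerSeries ℚ) (c : ℚ) (m : ℕ) :
    ∑ j ∈ range (m + 1), PowerSeries.coeff j ((PowerSeries.X - PowerSeries.C c) * U) * c ^ j =
      -PowerSeries.coeff m U * c ^ (m + 1) := by
  induction m with
  | zero => simp [mul_comm]
  | succ m ih =>
    rw [Finset.sum_range_succ, ih, sub_mul, map_sub, PowerSeries.coeff_succ_X_mul,
      PowerSeries.coeff_C_mul]
    ring

theorem low {U : PowerSeries ℚ} (hU : Den U) {c : ℚ} {m : ℕ} {p : ℚ[X]}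
    (hd : p.natDegree < m + 1) (hc : p.eval c ≠ 0)
    (hp : ∀ j < m + 1, p.coeff j =
      PowerSeries.coeff j ((PowerSeries.X - PowerSeries.C c) * U)) :
    |c| ^ (m + 1) ≤ 256 ^ m * |p.eval c| := by
  have h1 : p.eval c = -PowerSeries.coeff m U * c ^ (m + 1) := by
    rw [eval_eq_sum_range' hd, ← tele]
    exact Finset.sum_congr rfl fun j hj => by rw [hp j (mem_range.1 hj)]
  obtain ⟨a, ha⟩ := hU m
  have hp0 : (0 : ℚ) < Nat.lcmUpto m := by exact_mod_cast Nat.lcmUpto_pos m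
  have hU0 : PowerSeries.coeff m U ≠ 0 := fun h => hc (by rw [h1, h]; simp)
  have ha0 : a ≠ 0 := by
    rintro rfl
    exact mul_ne_zero hp0.ne' hU0 (by simpa using ha)
  have h2 : (1 : ℚ) ≤ |(a : ℚ)| := by exact_mod_cast Int.one_le_abs ha0
  rw [← ha, abs_mul, abs_of_pos hp0] at h2
  have h3 : (1 : ℚ) ≤ 256 ^ m * |PowerSeries.coeff m U| :=
    h2.trans (mul_le_mul_of_nonneg_right (lcm_le m) (abs_nonneg _))
  rw [h1, abs_mul, abs_neg, abs_pow, ← mul_assoc]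
  exact le_mul_of_one_le_left (by positivity) h3

theorem deg_RR {r t n : ℕ} {T : ℚ[X]} {A : Fin (r + 1) → Fin (r + 1) → ℚ[X]}
    {P : Fin (r + 1) → ℚ[X]} (hT : T.natDegree ≤ t) (hA : ∀ i j, (A i j).natDegree ≤ t)
    (hP : ∀ i, (P i).natDegree ≤ n) (k : ℕ) : ∀ i, (RR T A P k i).natDegree ≤ n + k * t := by
  induction k with
  | zero => simpa [RR] using hP
  | succ k ih =>
    intro i
    have e : n + (k + 1) * t = t + (n + k * t) := by ring
    rw [RR, e]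
    refine (natDegree_sub_le _ _).trans (max_le ((natDegree_sub_le _ _).trans (max_le ?_ ?_)) ?_)
    · exact natDegree_mul_le_of_le hT ((natDegree_derivative_le _).trans
        ((Nat.sub_le _ _).trans (ih i)))
    · refine natDegree_mul_le_of_le ((natDegree_C_mul_le _ _).trans ?_) (ih i)
      exact (natDegree_derivative_le _).trans ((Nat.sub_le _ _).trans hT)
    · exact natDegree_sum_le_of_forall_le _ _ fun j _ => natDegree_mul_le_of_le (hA i j) (ih j)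

theorem dvd_D {m : ℕ} {h : PowerSeries ℚ} (hh : PowerSeries.X ^ m ∣ h) :
    PowerSeries.X ^ (m - 1) ∣ D h := by
  rw [PowerSeries.X_pow_dvd_iff] at hh ⊢
  intro j hj
  rw [D, PowerSeries.coeff_derivative, hh (j + 1) (by omega), zero_mul]

theorem coe_sum {ι : Type} (s : Finset ι) (p : ι → ℚ[X]) :
    ((∑ j ∈ s, p j : ℚ[X]) : PowerSeries ℚ) = ∑ j ∈ s, (p j : PowerSeries ℚ) :=
  map_sum Polynomial.coeToPowerSeries.ringHom p s

theorem err {r N : ℕ} {f : Fin (r + 1) → PowerSeries ℚ} {T Q : ℚ[X]}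
    {A : Fin (r + 1) → Fin (r + 1) → ℚ[X]} {P : Fin (r + 1) → ℚ[X]}
    (hf : ∀ i, (T : PowerSeries ℚ) * D (f i) = ∑ j, (A i j : PowerSeries ℚ) * f j)
    (hP : ∀ i, PowerSeries.X ^ N ∣ (Q : PowerSeries ℚ) * f i - (P i : PowerSeries ℚ)) (k : ℕ) :
    ∀ i, PowerSeries.X ^ (N - k) ∣
      ((T ^ k * derivative^[k] Q : ℚ[X]) : PowerSeries ℚ) * f i -
        (RR T A P k i : PowerSeries ℚ) := by
  induction k with
  | zero => simpa [RR] using hP
  | succ k ih =>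
    intro i
    have e1 : T * derivative (T ^ k * derivative^[k] Q) =
        C (k : ℚ) * derivative T * (T ^ k * derivative^[k] Q) +
          T ^ (k + 1) * derivative^[k + 1] Q := by
      rw [derivative_mul, derivative_pow, Function.iterate_succ_apply']
      rcases k with _ | k
      · simp
      · simp only [Nat.add_sub_cancel]
        ring
    have e2 := congrArg (fun p : ℚ[X] => (p : PowerSeries ℚ)) e1
    simp only [Polynomial.coe_add] at e2
    set W : ℚ[X] := T ^ k * derivative^[k] Q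
    have e3 : ((T ^ (k + 1) * derivative^[k + 1] Q : ℚ[X]) : PowerSeries ℚ) * f i -
        (RR T A P (k + 1) i : PowerSeries ℚ) =
        (T : PowerSeries ℚ) * D ((W : PowerSeries ℚ) * f i - (RR T A P k i : PowerSeries ℚ)) -
          ((C (k : ℚ) * derivative T : ℚ[X]) : PowerSeries ℚ) *
            ((W : PowerSeries ℚ) * f i - (RR T A P k i : PowerSeries ℚ)) -
          ∑ j, (A i j : PowerSeries ℚ) *
            ((W : PowerSeries ℚ) * f j - (RR T A P k j : PowerSeries ℚ)) := by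
      have e4 : ∑ j, (A i j : PowerSeries ℚ) *
            ((W : PowerSeries ℚ) * f j - (RR T A P k j : PowerSeries ℚ)) =
          (W : PowerSeries ℚ) * ((T : PowerSeries ℚ) * D (f i)) -
            ((∑ j, A i j * RR T A P k j : ℚ[X]) : PowerSeries ℚ) := by
        rw [hf i, Finset.mul_sum, coe_sum, ← Finset.sum_sub_distrib]
        refine Finset.sum_congr rfl fun j _ => ?_
        rw [Polynomial.coe_mul (A i j)]
        ring
      rw [e4, RR]
      simp only [D, map_sub, Derivation.leibniz, PowerSeries.derivative_coe, smul_eq_mul,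
        Polynomial.coe_sub, Polynomial.coe_mul] at e2 ⊢
      linear_combination (-f i) * e2
    rw [e3]
    have hle : (PowerSeries.X : PowerSeries ℚ) ^ (N - (k + 1)) ∣ PowerSeries.X ^ (N - k) :=
      pow_dvd_pow _ (by omega)
    refine dvd_sub (dvd_sub (Dvd.dvd.mul_left ?_ _) ((hle.trans (ih i)).mul_left _))
      (Finset.dvd_sum fun j _ => (hle.trans (ih j)).mul_left _)
    exact dvd_D (ih i)

theorem far {p : ℚ[X]} (hp : p ≠ 0) : ∃ c₀ : ℕ, ∀ c : ℤ, (c₀ : ℤ) ≤ |c| → p.eval (c : ℚ) ≠ 0 := by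
  obtain ⟨c₀, hc⟩ := exists_nat_gt (∑ x ∈ p.roots.toFinset, |x|)
  refine ⟨c₀, fun c h h0 => ?_⟩
  have h1 : (c : ℚ) ∈ p.roots.toFinset := by
    rw [Multiset.mem_toFinset, mem_roots hp]
    exact h0
  have h2 := Finset.single_le_sum (f := fun x : ℚ => |x|) (fun x _ => abs_nonneg x) h1
  have h3 : (c₀ : ℚ) ≤ |(c : ℚ)| := by exact_mod_cast h
  linarith

theorem coefB (p : ℚ[X]) : ∃ β : ℕ, 1 ≤ β ∧ ∀ l, |p.coeff l| ≤ β := by
  obtain ⟨β, hβ⟩ := exists_nat_gt (∑ l ∈ p.support, |p.coeff l|)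
  refine ⟨β + 1, by omega, fun l => ?_⟩
  by_cases hl : l ∈ p.support
  · have := Finset.single_le_sum (f := fun l => |p.coeff l|) (fun x _ => abs_nonneg _) hl
    push_cast
    linarith
  · rw [notMem_support_iff.1 hl, abs_zero]
    positivity

theorem core {r t d n e k Cf β : ℕ} {f : Fin (r + 1) → PowerSeries ℚ} {T T₀ Q : ℚ[X]}
    {A : Fin (r + 1) → Fin (r + 1) → ℚ[X]} {P φ : Fin (r + 1) → ℚ[X]} {B c : ℚ}
    {G V : PowerSeries ℚ} (hS : Sys f T A) (hT : IntP T) (hT₀ : IntP T₀) (ht : T.natDegree ≤ t)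
    (hA : ∀ i j, (A i j).natDegree ≤ t) (hβ : ∀ l, |T.coeff l| ≤ β) (hCf : 1 ≤ Cf)
    (hf : ∀ i j, |PowerSeries.coeff j (f i)| ≤ (Cf : ℚ) ^ (j + 1)) (hQ : IntP Q)
    (hQB : ∀ l, |Q.coeff l| ≤ B) (hP : Pade f n e Q P) (hφ : ∀ j, (φ j).natDegree ≤ d)
    (hG : (T₀ : PowerSeries ℚ) * G = ∑ j, (φ j : PowerSeries ℚ) * f j) (hV : Den V)
    (hc : 1 ≤ |c|) (hGV : ∀ j < n + e - k + 1, PowerSeries.coeff j G =
      PowerSeries.coeff j ((PowerSeries.X - PowerSeries.C c) * V))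
    (hk : d + k * t + k ≤ e) (hne : ∑ j, (φ j).eval c * (RR T A P k j).eval c ≠ 0) :
    |c| ^ (n + e - k + 1) ≤ 256 ^ (n + e - k) * ((∑ j, |(φ j).eval c|) *
      ((((n + k * t : ℕ) : ℚ) + 1) * ((((t : ℚ) + 1) * β) ^ k *
        (((n : ℚ) + 1) * (2 ^ n * B) * (Cf : ℚ) ^ (n + k * t + 1))) * |c| ^ (n + k * t))) := by
  obtain ⟨-, hQd, hPd, hPQ⟩ := hP
  have hB0 : 0 ≤ B := (abs_nonneg _).trans (hQB 0)
  set H : ℚ[X] := hasseDeriv k Q with hH
  have hHI : IntP H := by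
    intro l
    obtain ⟨m, hm⟩ := hQ (l + k)
    exact ⟨(l + k).choose k * m, by rw [hH, hasseDeriv_coeff, hm]; push_cast; rfl⟩
  have hHd : H.natDegree ≤ n := (natDegree_hasseDeriv_le _ _).trans ((Nat.sub_le _ _).trans hQd)
  have hHB : ∀ l, |H.coeff l| ≤ 2 ^ n * B := by
    intro l
    rw [hH, hasseDeriv_coeff, abs_mul]
    rcases le_or_gt (l + k) n with h | h
    · refine mul_le_mul ?_ (hQB _) (abs_nonneg _) (by positivity)
      rw [Nat.abs_cast]
      exact_mod_cast (Nat.choose_le_two_pow _ _).trans (Nat.pow_le_pow_right two_pos h)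
    · rw [coeff_eq_zero_of_natDegree_lt (hQd.trans_lt h), abs_zero, mul_zero]
      positivity
  have hfac : (k.factorial : ℚ) ≠ 0 := by exact_mod_cast k.factorial_ne_zero
  have hHQ : H = C (k.factorial : ℚ)⁻¹ * derivative^[k] Q := by
    rw [← factorial_smul_hasseDeriv, LinearMap.smul_apply, nsmul_eq_mul, ← C_eq_natCast,
      ← mul_assoc, ← C_mul, inv_mul_cancel₀ hfac, C_1, one_mul]
  set ρ : Fin (r + 1) → ℚ[X] := fun j => C (k.factorial : ℚ)⁻¹ * RR T A P k j with hρ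
  have hM : n + e + 1 - k = n + e - k + 1 := by omega
  have hE : ∀ i, PowerSeries.X ^ (n + e - k + 1) ∣
      (T : PowerSeries ℚ) ^ k * ((H : PowerSeries ℚ) * f i) - (ρ i : PowerSeries ℚ) := by
    intro i
    have h1 := err (N := n + e + 1) (Q := Q) (P := P) hS.2.2 (fun i =>
      PowerSeries.X_pow_dvd_iff.2 fun j hj => hPQ i j (Nat.lt_succ_iff.1 hj)) k i
    rw [hM] at h1
    convert h1.mul_left ((C (k.factorial : ℚ)⁻¹ : ℚ[X]) : PowerSeries ℚ) using 1
    rw [hHQ, hρ]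
    simp only [Polynomial.coe_mul, Polynomial.coe_pow]
    ring
  have hρd : ∀ j, (ρ j).natDegree ≤ n + k * t := fun j =>
    (natDegree_C_mul_le _ _).trans (deg_RR ht hA hPd k j)
  have hev : (∑ j, φ j * ρ j).eval c = ∑ j, (φ j).eval c * (ρ j).eval c := by
    rw [eval_finsetSum]
    exact Finset.sum_congr rfl fun j _ => eval_mul
  have h1 := low (U := (T : PowerSeries ℚ) ^ k * ((H : PowerSeries ℚ) * (T₀ * V)))
    (den_pow hT (den_mul hHI (den_mul hT₀ hV)) k) (c := c) (m := n + e - k)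
    (p := ∑ j, φ j * ρ j) ?_ ?_ ?_
  · refine h1.trans (mul_le_mul_of_nonneg_left ?_ (by positivity))
    rw [hev, Finset.sum_mul]
    refine (Finset.abs_sum_le_sum_abs _ _).trans (Finset.sum_le_sum fun j _ => ?_)
    rw [abs_mul]
    refine mul_le_mul_of_nonneg_left (evalB (hρd j) (fun l hl => ?_) hc) (abs_nonneg _)
    have h2 := PowerSeries.X_pow_dvd_iff.1 (hE j) l (by omega)
    rw [map_sub, sub_eq_zero, Polynomial.coeff_coe] at h2
    rw [← h2]
    refine powB ht hβ (mulB hHd hHB fun i hi => (hf j i).trans ?_) k l hl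
    exact pow_le_pow_right₀ (by exact_mod_cast hCf) (by omega)
  · refine Nat.lt_succ_of_le (natDegree_sum_le_of_forall_le _ _ fun j _ => ?_)
    exact (natDegree_mul_le_of_le (hφ j) (hρd j)).trans (by omega)
  · intro h0
    apply hne
    rw [hev] at h0
    have h3 : ∑ j, (φ j).eval c * (RR T A P k j).eval c =
        k.factorial * ∑ j, (φ j).eval c * (ρ j).eval c := by
      rw [Finset.mul_sum]
      refine Finset.sum_congr rfl fun j _ => ?_
      rw [hρ]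
      simp only [eval_mul, eval_C]
      field_simp
    rw [h3, h0, mul_zero]
  · have h4 : PowerSeries.X ^ (n + e - k + 1) ∣ G - (PowerSeries.X - PowerSeries.C c) * V :=
      PowerSeries.X_pow_dvd_iff.2 fun j hj => by rw [map_sub, hGV j hj, sub_self]
    have h5 : ((∑ j, φ j * ρ j : ℚ[X]) : PowerSeries ℚ) - (PowerSeries.X - PowerSeries.C c) *
        ((T : PowerSeries ℚ) ^ k * ((H : PowerSeries ℚ) * ((T₀ : PowerSeries ℚ) * V))) =
        (T : PowerSeries ℚ) ^ k * (H : PowerSeries ℚ) * (T₀ : PowerSeries ℚ) *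
          (G - (PowerSeries.X - PowerSeries.C c) * V) -
          ∑ j, (φ j : PowerSeries ℚ) *
            ((T : PowerSeries ℚ) ^ k * ((H : PowerSeries ℚ) * f j) - (ρ j : PowerSeries ℚ)) := by
      have h6 : ∑ j, (φ j : PowerSeries ℚ) *
            ((T : PowerSeries ℚ) ^ k * ((H : PowerSeries ℚ) * f j) - (ρ j : PowerSeries ℚ)) =
          (T : PowerSeries ℚ) ^ k * (H : PowerSeries ℚ) * ((T₀ : PowerSeries ℚ) * G) -
            ((∑ j, φ j * ρ j : ℚ[X]) : PowerSeries ℚ) := by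
        rw [hG, coe_sum, Finset.mul_sum, ← Finset.sum_sub_distrib]
        refine Finset.sum_congr rfl fun j _ => ?_
        rw [Polynomial.coe_mul (φ j)]
        ring
      rw [h6]
      ring
    have h7 := dvd_sub (h4.mul_left
      ((T : PowerSeries ℚ) ^ k * (H : PowerSeries ℚ) * (T₀ : PowerSeries ℚ)))
      (Finset.dvd_sum fun j (_ : j ∈ Finset.univ) => (hE j).mul_left (φ j : PowerSeries ℚ))
    rw [← h5, PowerSeries.X_pow_dvd_iff] at h7
    intro j hj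
    have h8 := h7 j hj
    rwa [map_sub, sub_eq_zero, Polynomial.coeff_coe] at h8

theorem numer {L ν n k J m τ Cf B : ℕ} (hτ : 1 ≤ τ) (hCf : 1 ≤ Cf) (hm : m ≤ L * ν)
    (hJ : J + 1 ≤ L * ν) (hk : k ≤ L * ν) (hn : n + 1 ≤ L * ν) :
    256 ^ m * ((J + 1) * (τ ^ k * ((n + 1) * (2 ^ n * B ^ ν) * Cf ^ (J + 1)))) ≤
      ((256 * (2 * (τ * (2 * 2 * Cf)))) ^ L * B + 1) ^ ν := by
  refine le_trans ?_ (Nat.pow_le_pow_left (Nat.le_succ _) _)
  have h1 : J + 1 ≤ 2 ^ (L * ν) := hJ.trans Nat.lt_two_pow_self.le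
  have h2 : n + 1 ≤ 2 ^ (L * ν) := hn.trans Nat.lt_two_pow_self.le
  calc _ ≤ 256 ^ (L * ν) * (2 ^ (L * ν) * (τ ^ (L * ν) * (2 ^ (L * ν) * (2 ^ (L * ν) * B ^ ν) *
        Cf ^ (L * ν)))) := by
        gcongr
        · norm_num
        · norm_num
        · omega
    _ = _ := by
        rw [mul_pow _ B, ← pow_mul]
        simp only [mul_pow]
        ring

theorem phi_ne {ι : Type} [Fintype ι] {i₀ : ι} {b : ι → ℤ} {α : ι → ℚ} {κ : ℕ} (hb : b i₀ ≠ 0)
    (hκ : ∀ i, i ≠ i₀ → (κ : ℤ) * |b i| ≤ |b i₀|) (hα : ∑ i, |α i| < κ * |α i₀|) :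
    ∑ i, (b i : ℚ) * α i ≠ 0 := by
  classical
  intro h0
  rw [← Finset.add_sum_erase _ _ (Finset.mem_univ i₀), add_eq_zero_iff_eq_neg] at h0
  have hb0 : (0 : ℚ) < |(b i₀ : ℚ)| := abs_pos.2 (by exact_mod_cast hb)
  have h1 : |(b i₀ : ℚ)| * (κ * |α i₀|) ≤ |(b i₀ : ℚ)| * ∑ i, |α i| := by
    calc |(b i₀ : ℚ)| * (κ * |α i₀|) = κ * |(b i₀ : ℚ) * α i₀| := by rw [abs_mul]; ring
      _ ≤ κ * ∑ i ∈ univ.erase i₀, |(b i : ℚ) * α i| := by
        rw [h0, abs_neg]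
        exact mul_le_mul_of_nonneg_left (Finset.abs_sum_le_sum_abs _ _) (Nat.cast_nonneg _)
      _ ≤ ∑ i ∈ univ.erase i₀, |(b i₀ : ℚ)| * |α i| := by
        rw [Finset.mul_sum]
        refine Finset.sum_le_sum fun i hi => ?_
        rw [abs_mul, ← mul_assoc]
        refine mul_le_mul_of_nonneg_right ?_ (abs_nonneg _)
        exact_mod_cast hκ i (Finset.ne_of_mem_erase hi)
      _ ≤ _ := by
        rw [Finset.mul_sum]
        exact Finset.sum_le_sum_of_subset_of_nonneg (Finset.erase_subset _ _)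
          fun i _ _ => by positivity
  exact absurd (le_of_mul_le_mul_left h1 hb0) (not_le.2 hα)

theorem sg (h1 : SBas) (h2 : SPade) (h3 : SZero) : SG := by
  intro ι _ g i₀ hg hg0
  obtain ⟨r, f, T, T₀, A, a, hS, hT0, hT₀0, hT, hT₀, hf, ha⟩ := h1 ι g hg
  obtain ⟨j₀, hj₀⟩ : ∃ j₀, a i₀ j₀ ≠ 0 := by
    by_contra! h
    have h4 := ha i₀
    simp only [h, Polynomial.coe_zero, zero_mul, Finset.sum_const_zero] at h4
    exact mul_ne_zero (by exact_mod_cast hT₀0) hg0 h4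
  obtain ⟨t, ht, hA⟩ : ∃ t, T.natDegree ≤ t ∧ ∀ i j, (A i j).natDegree ≤ t := by
    refine ⟨T.natDegree + ∑ i, ∑ j, (A i j).natDegree, Nat.le_add_right _ _, fun i j => ?_⟩
    have h4 := Finset.single_le_sum (f := fun j => (A i j).natDegree) (fun _ _ => Nat.zero_le _)
      (Finset.mem_univ j)
    have h5 := Finset.single_le_sum (f := fun i => ∑ j, (A i j).natDegree)
      (fun _ _ => Nat.zero_le _) (Finset.mem_univ i)
    exact h4.trans (h5.trans (Nat.le_add_left _ _))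
  obtain ⟨d, hd⟩ : ∃ d, ∀ i j, (a i j).natDegree ≤ d := by
    refine ⟨∑ i, ∑ j, (a i j).natDegree, fun i j => ?_⟩
    have h4 := Finset.single_le_sum (f := fun j => (a i j).natDegree) (fun _ _ => Nat.zero_le _)
      (Finset.mem_univ j)
    exact h4.trans (Finset.single_le_sum (f := fun i => ∑ j, (a i j).natDegree)
      (fun _ _ => Nat.zero_le _) (Finset.mem_univ i))
  obtain ⟨Cf, hCf, hCff⟩ : ∃ Cf : ℕ, 1 ≤ Cf ∧
      ∀ i j, |PowerSeries.coeff j (f i)| ≤ (Cf : ℚ) ^ (j + 1) := by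
    choose F hF using fun i => (hf i).2
    refine ⟨∑ i, F i + 1, by omega, fun i j => (hF i j).trans ?_⟩
    refine pow_le_pow_left₀ (Nat.cast_nonneg _) ?_ _
    exact_mod_cast (Finset.single_le_sum (f := F) (fun _ _ => Nat.zero_le _)
      (Finset.mem_univ i)).trans (Nat.le_succ _)
  obtain ⟨β, hβ1, hβ⟩ := coefB T
  obtain ⟨K, hK⟩ : ∃ K, K = r * (t + 1) + 2 := ⟨_, rfl⟩
  obtain ⟨B, hB⟩ := h2 r f hS.1 hf (K + 1) (by omega)
  obtain ⟨c₁, hc₁⟩ := far (mul_ne_zero hT0 hj₀)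
  obtain ⟨L, hL⟩ : ∃ L, L = (r + 1) * (K + 1) := ⟨_, rfl⟩
  obtain ⟨C₂, hC₂⟩ : ∃ C₂, C₂ = (256 * (2 * ((t + 1) * β * (2 * 2 * Cf)))) ^ L * B + 1 :=
    ⟨_, rfl⟩
  refine ⟨c₁ + 2 * C₂, fun c hc => ?_⟩
  have hC₂1 : 1 ≤ C₂ := by omega
  have hc2 : 2 * (C₂ : ℚ) ≤ |(c : ℚ)| := by
    have : 2 * (C₂ : ℤ) ≤ |c| := by
      push_cast at hc
      omega
    exact_mod_cast this
  have hC₂2 : (1 : ℚ) ≤ C₂ := by exact_mod_cast hC₂1
  have hc1 : 1 ≤ |(c : ℚ)| := by linarith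
  have hc0 : (c : ℚ) ≠ 0 := abs_pos.1 (by linarith)
  have hc3 := hc₁ c (by
    push_cast at hc
    omega)
  rw [eval_mul] at hc3
  obtain ⟨C₀, hC₀⟩ := h3 r f T A hS c hc0 (left_ne_zero_of_mul hc3)
  obtain ⟨Φ, hΦ⟩ := exists_nat_gt (∑ j, ∑ i, |(a i j).eval (c : ℚ)|)
  have hα0 : 0 < |(a i₀ j₀).eval (c : ℚ)| := abs_pos.2 (right_ne_zero_of_mul hc3)
  obtain ⟨κ₁, hκ₁⟩ := exists_nat_gt ((∑ i, |(a i j₀).eval (c : ℚ)|) / |(a i₀ j₀).eval (c : ℚ)|)
  rw [div_lt_iff₀ hα0] at hκ₁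
  obtain ⟨ν₀, hν₀⟩ : ∃ ν₀, ν₀ = C₀ * (t + 1) + d + C₀ + Φ + 1 := ⟨_, rfl⟩
  refine ⟨L * ν₀ + κ₁ + 1, fun b hb hκ N V hV hN => ?_⟩
  by_contra! hlt
  obtain ⟨ν, hν⟩ : ∃ ν, ν = ν₀ + Nat.log 2 (b i₀).natAbs := ⟨_, rfl⟩
  have hνN : L * ν ≤ N := by
    refine le_trans ?_ hlt.le
    have : ν ≤ ν₀ * (Nat.log 2 (b i₀).natAbs + 1) := by
      rw [hν, mul_add, mul_one, add_comm]
      exact Nat.add_le_add_right (Nat.le_mul_of_pos_left _ (by omega)) _
    calc L * ν ≤ L * ν₀ * (Nat.log 2 (b i₀).natAbs + 1) := by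
          rw [mul_assoc]
          exact Nat.mul_le_mul_left _ this
      _ ≤ _ := Nat.mul_le_mul_right _ (by omega)
  obtain ⟨Q, hQ0, hQ, hQd, hQB, hQf⟩ := hB ν (by omega)
  rw [Nat.add_sub_cancel] at hQf
  obtain ⟨n, hn⟩ : ∃ n, n = r * (K + 1) * ν := ⟨_, rfl⟩
  obtain ⟨e, he⟩ : ∃ e, e = K * ν := ⟨_, rfl⟩
  rw [← hn] at hQd
  rw [← hn, ← he] at hQf
  have hP : Pade f n e Q fun i => PowerSeries.trunc (n + 1) ((Q : PowerSeries ℚ) * f i) := by
    refine ⟨hQ0, hQd, fun i => Nat.lt_succ_iff.1 (PowerSeries.natDegree_trunc_lt _ _),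
      fun i j hj => ?_⟩
    rw [map_sub, Polynomial.coeff_coe, PowerSeries.coeff_trunc]
    split_ifs with h
    · exact sub_self _
    · rw [hQf i j (by omega) hj, sub_zero]
  set φ : Fin (r + 1) → ℚ[X] := fun j => ∑ i, C (b i : ℚ) * a i j with hφ
  have hφe : ∀ j, (φ j).eval (c : ℚ) = ∑ i, (b i : ℚ) * (a i j).eval (c : ℚ) := by
    intro j
    rw [hφ]
    simp only [eval_finsetSum, eval_mul, eval_C]
  have he2 : e = r * (t + 1) * ν + 2 * ν := by rw [he, hK]; ring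
  obtain ⟨k, hk, hne⟩ := hC₀ n e Q _ (by omega) hP (fun j => (φ j).eval (c : ℚ)) (by
    intro h0
    have h4 := congrFun h0 j₀
    rw [hφe] at h4
    refine phi_ne (κ := L * ν₀ + κ₁ + 1) hb hκ (hκ₁.trans_le ?_) h4
    refine mul_le_mul_of_nonneg_right ?_ hα0.le
    exact_mod_cast (by omega : κ₁ ≤ L * ν₀ + κ₁ + 1))
  have hk1 : k ≤ r * ν + C₀ := by
    have : n = r * e + r * ν := by rw [hn, he]; ring
    omega
  have hk2 : k * t + k ≤ r * (t + 1) * ν + C₀ * (t + 1) := by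
    calc k * t + k = k * (t + 1) := by ring
      _ ≤ (r * ν + C₀) * (t + 1) := Nat.mul_le_mul_right _ hk1
      _ = _ := by ring
  have hLν : L * ν = n + e + ν := by rw [hL, hn, he]; ring
  have hmain := core (d := d) (k := k) (φ := φ) (G := ∑ i, PowerSeries.C (b i : ℚ) * g i) hS hT hT₀
    ht hA hβ hCf hCff hQ hQB hP (fun j => natDegree_sum_le_of_forall_le _ _ fun i _ =>
      (natDegree_C_mul_le _ _).trans (hd i j)) (by
      rw [Finset.mul_sum]
      simp only [hφ, coe_sum, Finset.sum_mul]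
      rw [Finset.sum_comm]
      refine Finset.sum_congr rfl fun i _ => ?_
      rw [mul_left_comm, ha i, Finset.mul_sum]
      refine Finset.sum_congr rfl fun j _ => ?_
      rw [Polynomial.coe_mul, Polynomial.coe_C, mul_assoc]) hV hc1
      (fun j hj => hN j (by omega)) (by omega) hne
  have hnum := numer (L := L) (ν := ν) (n := n) (k := k) (J := n + k * t) (m := n + e - k)
    (τ := (t + 1) * β) (B := B) (Nat.mul_pos (Nat.succ_pos t) hβ1) hCf (by omega) (by omega)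
    (by omega) (by omega)
  rw [← hC₂] at hnum
  have hnum' : (256 : ℚ) ^ (n + e - k) * ((((n + k * t : ℕ) : ℚ) + 1) * ((((t : ℚ) + 1) * β) ^ k *
      (((n : ℚ) + 1) * (2 ^ n * (B : ℚ) ^ ν) * (Cf : ℚ) ^ (n + k * t + 1)))) ≤ (C₂ : ℚ) ^ ν := by
    exact_mod_cast hnum
  have hb1 : ∀ i, |(b i : ℚ)| ≤ |(b i₀ : ℚ)| := by
    intro i
    by_cases hi : i = i₀
    · rw [hi]
    · have h4 := hκ i hi
      have h5 : |b i| ≤ |b i₀| := by
        refine le_trans (le_mul_of_one_le_left (abs_nonneg _) ?_) h4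
        exact_mod_cast (by omega : 1 ≤ L * ν₀ + κ₁ + 1)
      exact_mod_cast h5
  have hΦ2 : ∑ j, |(φ j).eval (c : ℚ)| ≤ |(b i₀ : ℚ)| * Φ := by
    refine le_trans ?_ (mul_le_mul_of_nonneg_left hΦ.le (abs_nonneg _))
    rw [Finset.mul_sum]
    refine Finset.sum_le_sum fun j _ => ?_
    rw [hφe, Finset.mul_sum]
    refine (Finset.abs_sum_le_sum_abs _ _).trans (Finset.sum_le_sum fun i _ => ?_)
    rw [abs_mul]
    exact mul_le_mul_of_nonneg_right (hb1 i) (abs_nonneg _)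
  have hΦ3 : |(b i₀ : ℚ)| * Φ < 2 ^ ν := by
    have h4 : (b i₀).natAbs < 2 ^ (Nat.log 2 (b i₀).natAbs + 1) :=
      Nat.lt_pow_succ_log_self one_lt_two _
    have h5 : Φ < 2 ^ Φ := Nat.lt_two_pow_self
    have h6 : (b i₀).natAbs * Φ < 2 ^ ν := by
      refine (Nat.mul_lt_mul'' h4 h5).trans_le ?_
      rw [← pow_add]
      exact Nat.pow_le_pow_right two_pos (by omega)
    rw [← Int.cast_abs, Int.abs_eq_natAbs]
    exact_mod_cast h6
  have hJ : 0 < |(c : ℚ)| ^ (n + k * t) := by positivity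
  have h7 : (2 * (C₂ : ℚ)) ^ ν * |(c : ℚ)| ^ (n + k * t) ≤ |(c : ℚ)| ^ (n + e - k + 1) := by
    refine (mul_le_mul_of_nonneg_right (pow_le_pow_left₀ (by positivity) hc2 ν) hJ.le).trans ?_
    rw [← pow_add]
    exact pow_le_pow_right₀ hc1 (by omega)
  have h8 : |(c : ℚ)| ^ (n + e - k + 1) ≤
      (∑ j, |(φ j).eval (c : ℚ)|) * (C₂ : ℚ) ^ ν * |(c : ℚ)| ^ (n + k * t) := by
    refine hmain.trans ?_
    have h9 := mul_le_mul_of_nonneg_right (mul_le_mul_of_nonneg_left hnum'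
      (Finset.sum_nonneg fun j (_ : j ∈ Finset.univ) => abs_nonneg ((φ j).eval (c : ℚ)))) hJ.le
    refine le_trans (le_of_eq ?_) h9
    ring
  have h10 := le_of_mul_le_mul_right (h7.trans h8) hJ
  rw [mul_pow] at h10
  have h11 := le_of_mul_le_mul_right h10 (by positivity)
  linarith

end Pool.Agent.MP_c1891a_nt.H33
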